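import Pool.Agent.TH716.CF.Strict

/-! The boundary case: `∑ r = k ^ 2` and `k d ≤ ∑ r w`. -/

set_option autoImplicit false

namespace Pool.Agent.TH716.CF

/-- the flattened triangle -/
def Shp (d : ℕ) (s τ : ℝ) : Set (ℤ × ℤ) :=
  {m | 0 ≤ m.2 ∧ -((d : ℝ) * (1 + τ)) + 3 * s * m.2 ≤ m.1 ∧
      (m.1 : ℝ) ≤ -((d : ℝ) * (1 + τ)) + d * s - (s ^ 2 - 3 * s) * m.2}

theorem flat_tri {p : ℕ} {ι : Type} {r w : ι → ℕ} {d : ℕ} {s τ : ℝ} (hs3 : 3 ≤ s) {c : ℤ}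
    (hc : (c : ℝ) = 3 * s - 3 * (1 + τ)) (e0 : EmpG p r w (Shp d s τ)) :
    EmpG p r w (Tri d τ) := by
  have e1 : EmpG p r w {m : ℤ × ℤ | ((m.1 - c * m.2, m.2) : ℤ × ℤ) ∈ Tri d τ} := by
    refine e0.flat0 ?_
    rintro a b T k ⟨g1, g2, g3⟩ ⟨g4, g5, g6⟩ hk hkT
    simp only at g1 g2 g3 g4 g5 g6
    push_cast at g2 g3 g5 g6
    have hb : (0 : ℝ) ≤ b := by exact_mod_cast g1
    have hkT' : (k : ℝ) ≤ T := by exact_mod_cast hkT
    have hk0 : (0 : ℝ) ≤ k := by exact_mod_cast hk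
    refine ⟨hk, ?_, ?_⟩
    · simp only
      have X2 : 0 ≤ (a : ℝ) + (d : ℝ) * (1 + τ) - 3 * s * (b + T) := by
        have : (a : ℝ) + (d : ℝ) * (1 + τ) - 3 * s * (b + T) =
            (a - (3 * s - 3 * (1 + τ)) * (b + T)) + ((d : ℝ) - 3 * (b + T)) * (1 + τ) := by ring
        rw [this, ← hc]
        linarith
      have : 3 * s * k ≤ 3 * s * (b + T) := mul_le_mul_of_nonneg_left (by linarith) (by linarith)
      linarith
    · simp only
      have X2 : 0 ≤ (a : ℝ) + (d : ℝ) * (1 + τ) - 3 * s * (b + T) := by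
        have : (a : ℝ) + (d : ℝ) * (1 + τ) - 3 * s * (b + T) =
            (a - (3 * s - 3 * (1 + τ)) * (b + T)) + ((d : ℝ) - 3 * (b + T)) * (1 + τ) := by ring
        rw [this, ← hc]
        linarith
      have X1 : 0 ≤ (d : ℝ) * (2 - τ) + (3 * s - 9) * b - a := by
        have : (d : ℝ) * (2 - τ) + (3 * s - 9) * b - a =
            ((d : ℝ) - 3 * b) * (2 - τ) - (a - (3 * s - 3 * (1 + τ)) * b) := by ring
        rw [this, ← hc]
        linarith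
      have e2 : 9 * (-((d : ℝ) * (1 + τ)) + d * s - (s ^ 2 - 3 * s) * T - a) =
          3 * s * ((d : ℝ) * (2 - τ) + (3 * s - 9) * b - a) +
          (3 * s - 9) * ((a : ℝ) + (d : ℝ) * (1 + τ) - 3 * s * (b + T)) := by ring
      have p1 : 0 ≤ 3 * s * ((d : ℝ) * (2 - τ) + (3 * s - 9) * b - a) :=
        mul_nonneg (by linarith) X1
      have p2 : 0 ≤ (3 * s - 9) * ((a : ℝ) + (d : ℝ) * (1 + τ) - 3 * s * (b + T)) :=
        mul_nonneg (by linarith) X2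
      have p3 : (s ^ 2 - 3 * s) * k ≤ (s ^ 2 - 3 * s) * T :=
        mul_le_mul_of_nonneg_left hkT' (by nlinarith)
      linarith
  refine e1.shear c ?_
  intro m hm
  show ((m.1 + c * m.2 - c * m.2, m.2) : ℤ × ℤ) ∈ Tri d τ
  rw [add_sub_cancel_right]
  exact hm

theorem boundary (HF : FinalS) {p : ℕ} (hp : p = 0 ∨ p.Prime) {ι : Type} [Fintype ι]
    {r w : ι → ℕ} (hr : ∀ i, 1 ≤ r i) {k d : ℕ} (hk : 4 ≤ k) (hn : ∑ i, r i = k ^ 2) (hd : 0 < d)
    (h : k * d ≤ ∑ i, r i * w i) :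
    ∃ τ : ℝ, 0 < τ ∧ τ < 1 ∧ EmpG p r w (Tri d τ) := by
  have hk' : (4 : ℝ) ≤ k := by exact_mod_cast hk
  have hd' : (1 : ℝ) ≤ d := by exact_mod_cast hd
  have hkd : (0 : ℝ) < 6 * k * (d + 1) := by positivity
  obtain ⟨ε, hε⟩ : ∃ ε : ℝ, ε = 1 / (6 * k * (d + 1)) := ⟨_, rfl⟩
  have hε1 : ε * (6 * k * (d + 1)) = 1 := by rw [hε]; field_simp
  have hε0 : 0 < ε := by rw [hε]; positivity
  have hε2 : ε ≤ 1 / 6 := by
    by_contra hcon
    push Not at hcon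
    have h1 : (48 : ℝ) ≤ 6 * k * (d + 1) := by nlinarith
    nlinarith
  have hεk : ε * k * (d + 1) = 1 / 6 := by linarith
  refine ⟨1 / 3 - ε, by linarith, by linarith, ?_⟩
  refine flat_tri (s := k - ε) (c := 3 * k - 4) (by linarith) (by push_cast; ring) ?_
  have hs3 : 0 < (k : ℝ) - ε - 3 := by linarith
  have hnR : ((∑ i, r i : ℕ) : ℝ) = (k : ℝ) ^ 2 := by rw [hn]; push_cast; ring
  have hR : (k : ℝ) * d ≤ ((∑ i, r i * w i : ℕ) : ℝ) := by exact_mod_cast h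
  refine HF hp hr (fun j => ⌊-(4 * (d : ℝ) / 3) + 3 * k * j⌋ + 1)
      (fun j => ⌊-(4 * (d : ℝ) / 3) + d * k - ((k : ℝ) ^ 2 - 3 * k) * j⌋) ?_ ?_
  · rintro ⟨a, b⟩ ⟨g1, g2, g3⟩
    simp only at g1 g2 g3
    have hb : (0 : ℝ) ≤ b := by exact_mod_cast g1
    have hbd : 3 * (b : ℝ) < d := by
      have h1 : ((k : ℝ) - ε) * ((k - ε) * b) ≤ (k - ε) * d := by nlinarith
      have h2 : ((k : ℝ) - ε) * b ≤ d := le_of_mul_le_mul_left h1 (by linarith)
      rcases eq_or_lt_of_le hb with h3 | h3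
      · rw [← h3]; linarith
      · nlinarith
    have A1 : -(4 * (d : ℝ) / 3) + 3 * k * b < a := by
      have : 0 < ε * (d - 3 * b) := mul_pos hε0 (by linarith)
      nlinarith
    have B1 : 3 * a ≤ -(4 * (d : ℤ)) + 3 * d * k - 3 * ((k : ℤ) ^ 2 - 3 * k) * b := by
      have h1 : (3 * a : ℝ) < -(4 * (d : ℝ)) + 3 * d * k - 3 * ((k : ℝ) ^ 2 - 3 * k) * b + 1 := by
        have h2 : 3 * ε * (2 * k - 3) * b < 1 := by
          have h3 : ε * k * b ≤ ε * k * (d + 1) / 3 := by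
            have : ε * k * b ≤ ε * k * ((d + 1) / 3) :=
              mul_le_mul_of_nonneg_left (by linarith) (by positivity)
            linarith
          have h4 : 0 ≤ ε * b := by positivity
          nlinarith
        have h5 : 0 ≤ ε ^ 2 * b := by positivity
        nlinarith
      have h6 : (3 * a : ℤ) < -(4 * (d : ℤ)) + 3 * d * k - 3 * ((k : ℤ) ^ 2 - 3 * k) * b + 1 := by
        exact_mod_cast h1
      omega
    refine ⟨g1, fun j hj => ⟨?_, Int.le_floor.2 ?_⟩⟩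
    · simp only at hj ⊢
      have hj' : (j : ℝ) ≤ b := by exact_mod_cast hj
      have h1 : 3 * (k : ℝ) * j ≤ 3 * k * b := mul_le_mul_of_nonneg_left hj' (by positivity)
      have h2 : ⌊-(4 * (d : ℝ) / 3) + 3 * k * j⌋ < a := Int.floor_lt.2 (by linarith)
      omega
    · simp only at hj ⊢
      have hj' : (j : ℝ) ≤ b := by exact_mod_cast hj
      have h1 : ((k : ℝ) ^ 2 - 3 * k) * j ≤ (k ^ 2 - 3 * k) * b :=
        mul_le_mul_of_nonneg_left hj' (by nlinarith)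
      have h2 : (3 * a : ℝ) ≤ -(4 * (d : ℝ)) + 3 * d * k - 3 * ((k : ℝ) ^ 2 - 3 * k) * b := by
        exact_mod_cast B1
      linarith
  · intro j
    have f1 := Int.lt_floor_add_one (-(4 * (d : ℝ) / 3) + 3 * k * j)
    have f2 := Int.floor_le (-(4 * (d : ℝ) / 3) + d * k - ((k : ℝ) ^ 2 - 3 * k) * j)
    have f3 := sum_sub_le r w j
    rw [hnR] at f3
    have f4 : ((⌊-(4 * (d : ℝ) / 3) + d * k - ((k : ℝ) ^ 2 - 3 * k) * j⌋ -
        (⌊-(4 * (d : ℝ) / 3) + 3 * k * j⌋ + 1) : ℤ) : ℝ) <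
        ((∑ i, ((r i * (w i - j) : ℕ) : ℤ) : ℤ) : ℝ) := by
      rw [Int.cast_sub, Int.cast_add, Int.cast_one]
      linarith
    exact_mod_cast f4

end Pool.Agent.TH716.CF
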