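import Pool.Agent.TH716.CF.Key
import Pool.Agent.TH603.EL.Scal1

/-! The key lemma for one germ in the affine plane (collisions), in any characteristic. -/

set_option autoImplicit false

namespace Pool.Agent.TH716.CF

open Pool.Agent.TH603.EL

section approx
variable {L : Type} [Field L]

open Polynomial in
/-- a smooth germ is the graph of a polynomial up to any order -/
theorem exists_graph {x y : PowerSeries L} (hx : PowerSeries.coeff 1 x ≠ 0) (k : ℕ) :
    ∃ q : L[X], q.degree < k ∧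
      (PowerSeries.X : PowerSeries L) ^ k ∣ y - q.eval₂ (PowerSeries.C (R := L)) x := by
  induction k with
  | zero => exact ⟨0, by simp, by simp⟩
  | succ k ih =>
    obtain ⟨q, hq, v, hv⟩ := ih
    obtain ⟨c, hc⟩ : ∃ c, c = PowerSeries.coeff 0 x := ⟨_, rfl⟩
    obtain ⟨u, hu⟩ : (PowerSeries.X : PowerSeries L) ∣ x - PowerSeries.C c := by
      rw [PowerSeries.X_dvd_iff, map_sub, hc]
      simp
    have hu0 : PowerSeries.constantCoeff u = PowerSeries.coeff 1 x := by
      have h1 := congrArg (PowerSeries.coeff 1) hu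
      rw [map_sub, PowerSeries.coeff_C, if_neg one_ne_zero, sub_zero,
        show (1 : ℕ) = 0 + 1 from rfl, PowerSeries.coeff_succ_X_mul] at h1
      rw [show PowerSeries.coeff 1 x = PowerSeries.coeff (0 + 1) x from rfl, h1]
      simp
    obtain ⟨l, hl⟩ : ∃ l : L, l = PowerSeries.constantCoeff v / PowerSeries.coeff 1 x ^ k :=
      ⟨_, rfl⟩
    refine ⟨q + C l * (X - C c) ^ k, ?_, ?_⟩
    · refine lt_of_le_of_lt (degree_add_le _ _) (max_lt ?_ ?_)
      · exact hq.trans (by exact_mod_cast Nat.lt_succ_self k)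
      · refine lt_of_le_of_lt (degree_mul_le _ _) ?_
        have h1 : ((X - C c : L[X]) ^ k).degree = k := by
          rw [degree_pow, degree_X_sub_C]; simp
        rw [h1]
        refine lt_of_le_of_lt (add_le_add_left degree_C_le _) ?_
        rw [zero_add]
        exact_mod_cast Nat.lt_succ_self k
    · have h2 : y - (q + C l * (X - C c) ^ k).eval₂ (PowerSeries.C (R := L)) x =
          PowerSeries.X ^ k * (v - PowerSeries.C l * u ^ k) := by
        rw [eval₂_add, eval₂_mul, eval₂_pow, eval₂_sub, eval₂_X, eval₂_C, eval₂_C, hu, mul_pow,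
          ← sub_sub, hv]
        ring
      rw [h2, pow_succ]
      apply mul_dvd_mul_left
      rw [PowerSeries.X_dvd_iff, map_sub, map_mul, map_pow, hu0, PowerSeries.constantCoeff_C, hl,
        div_mul_cancel₀ _ (pow_ne_zero _ hx), sub_self]

end approx

section tubeunit
variable {K : Type} [Field K] {τ : ℝ}

theorem theta0_isUnit (h0 : 0 < τ) (h1 : τ < 1) : IsUnit (theta K τ 0) := by
  have hne : theta K τ 0 ≠ 0 := by
    intro h
    have h2 := coeff_theta0 (F := K) h0 h1
    rw [h, HahnSeries.coeff_zero] at h2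
    exact one_ne_zero h2.symm
  have hord : (theta K τ 0).order = 0 := by
    apply le_antisymm
    · apply HahnSeries.order_le_of_coeff_ne_zero
      rw [coeff_theta0 h0 h1]
      exact one_ne_zero
    · rw [HahnSeries.le_order_iff_forall hne]
      exact low_theta h0.le h1.le 0
  apply HahnSeries.isUnit_of_isUnit_leadingCoeff_AddUnitOrder
  · rw [HahnSeries.leadingCoeff_eq, hord, coeff_theta0 h0 h1]
    exact isUnit_one
  · rw [hord]
    exact isAddUnit_zero

end tubeunit

section generic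
variable {L : Type} [Field L] {R : Type} [CommRing R]

open Polynomial in
theorem graph_ideal (inc : L →+* R) (a b : R) (ψ : R →+* PowerSeries L)
    (hinc : ∀ c, ψ (inc c) = PowerSeries.C c) (hx : PowerSeries.coeff 1 (ψ a) ≠ 0) (r : ℕ) :
    ∃ (c : L) (q : L[X]), q.degree < r ∧
      (Ideal.span {X - C q, C ((X - C c) ^ r)} : Ideal L[X][X]) ≤
        J (ψ.comp (eval₂RingHom (eval₂RingHom inc a) b)) r := by
  have hincl : (ψ.comp inc : L →+* PowerSeries L) = PowerSeries.C := by
    ext c : 1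
    exact hinc c
  obtain ⟨q, hq, hqd⟩ := exists_graph (y := ψ b) hx r
  refine ⟨PowerSeries.coeff 0 (ψ a), q, hq, ?_⟩
  rw [Ideal.span_le]
  rintro g (rfl | rfl)
  · show _ ∈ Ideal.comap _ _
    rw [Ideal.mem_comap, Ideal.mem_span_singleton, RingHom.comp_apply, coe_eval₂RingHom,
      eval₂_sub, eval₂_X, eval₂_C, coe_eval₂RingHom, map_sub, hom_eval₂, hincl]
    exact hqd
  · show _ ∈ Ideal.comap _ _
    rw [Ideal.mem_comap, Ideal.mem_span_singleton, RingHom.comp_apply, coe_eval₂RingHom,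
      eval₂_C, coe_eval₂RingHom, hom_eval₂, hincl, eval₂_pow, eval₂_sub, eval₂_X, eval₂_C]
    apply pow_dvd_pow_of_dvd
    rw [PowerSeries.X_dvd_iff, map_sub]
    simp

/-- the cyclic renaming of the coordinates -/
def cyc : Fin 3 ≃ ZMod 3 := Equiv.addRight (1 : Fin 3)

open Polynomial in
theorem cyc_eq (inc : L →+* R) (U : ZMod 3 → R) {V : R} (hV : V * U 0 = 1)
    (P : MvPolynomial (Fin 3) L) :
    eval₂RingHom (eval₂RingHom inc (V * U 1)) (V * U 2)
      ((MvPolynomial.aeval ![C X, X, 1] : MvPolynomial (Fin 3) L →ₐ[L] L[X][X]) P) =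
      MvPolynomial.eval₂Hom inc (fun l => V * U l) (MvPolynomial.rename cyc P) := by
  induction P using MvPolynomial.induction_on with
  | C a =>
    rw [MvPolynomial.aeval_C, MvPolynomial.rename_C, MvPolynomial.coe_eval₂Hom,
      MvPolynomial.eval₂_C]
    have : (algebraMap L L[X][X]) a = C (C a) := rfl
    rw [this, coe_eval₂RingHom, eval₂_C, coe_eval₂RingHom, eval₂_C]
  | add p q hp hq => rw [map_add, map_add, map_add, map_add, hp, hq]
  | mul_X p i hp =>
    rw [map_mul, map_mul, map_mul, map_mul, hp, MvPolynomial.aeval_X, MvPolynomial.rename_X,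
      MvPolynomial.coe_eval₂Hom, MvPolynomial.eval₂_X]
    congr 1
    fin_cases i
    · show eval₂RingHom (eval₂RingHom inc (V * U 1)) (V * U 2) (C X) = V * U 1
      rw [coe_eval₂RingHom, eval₂_C, coe_eval₂RingHom, eval₂_X]
    · show eval₂RingHom (eval₂RingHom inc (V * U 1)) (V * U 2) X = V * U 2
      rw [coe_eval₂RingHom, eval₂_X]
    · show eval₂RingHom (eval₂RingHom inc (V * U 1)) (V * U 2) 1 = V * U 0
      rw [map_one, hV]

theorem eval_smul {m : ℕ} {g : MvPolynomial (ZMod 3) L} (hg : g.IsHomogeneous m) (inc : L →+* R)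
    (u : R) (X : ZMod 3 → R) : MvPolynomial.eval₂Hom inc (fun l => u * X l) g =
      u ^ m * MvPolynomial.eval₂Hom inc X g := by
  rw [MvPolynomial.coe_eval₂Hom, MvPolynomial.coe_eval₂Hom, MvPolynomial.eval₂_eq',
    MvPolynomial.eval₂_eq', Finset.mul_sum]
  refine Finset.sum_congr rfl fun d hd => ?_
  have h1 : ∑ i : ZMod 3, d i = m := by
    have h2 := hg (MvPolynomial.mem_support_iff.1 hd)
    rw [← h2, Finsupp.weight_apply, Finsupp.sum_fintype _ _ (fun _ => by simp)]
    simp
  have h3 : ∏ i : ZMod 3, (u * X i) ^ d i = u ^ m * ∏ i : ZMod 3, X i ^ d i := by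
    simp only [mul_pow]
    rw [Finset.prod_mul_distrib, Finset.prod_pow_eq_pow_sum, h1]
  rw [h3]
  ring

open Polynomial in
theorem coll_gen (inc : L →+* R) (U : ZMod 3 → R) {V : R} (hV : V * U 0 = 1)
    (ψ : R →+* PowerSeries L) (hinc : ∀ c, ψ (inc c) = PowerSeries.C c)
    (hx : PowerSeries.coeff 1 (ψ (V * U 1)) ≠ 0) {r m d : ℕ} {I : Ideal R} (hI : J ψ r ^ m ≤ I)
    (hE : ∀ g : MvPolynomial (ZMod 3) L, g.IsHomogeneous d → g ≠ 0 →
      MvPolynomial.eval₂Hom inc U g ∉ I) :
    ∃ (c : L) (a : Fin r → L), ∀ P : MvPolynomial (Fin 3) L, P.IsHomogeneous d →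
        (MvPolynomial.aeval ![C X, X, 1] : MvPolynomial (Fin 3) L →ₐ[L] L[X][X]) P ∈
          (Ideal.span {X - C (∑ j : Fin r, C (a j) * X ^ (j : ℕ)), C ((X - C c) ^ r)} :
            Ideal L[X][X]) ^ m →
        P = 0 := by
  obtain ⟨c, q, hq, hle⟩ := graph_ideal inc (V * U 1) (V * U 2) ψ hinc hx r
  refine ⟨c, fun j => q.coeff j, ?_⟩
  intro P hP hIP
  by_contra hne
  have hqs : (∑ j : Fin r, C (q.coeff j) * X ^ (j : ℕ) : L[X]) = q := by
    rw [Fin.sum_univ_eq_sum_range (fun j => C (q.coeff j) * X ^ j : ℕ → L[X]) r]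
    by_cases hq0 : q = 0
    · rw [hq0]; simp
    · exact (as_sum_range_C_mul_X_pow' _ ((natDegree_lt_iff_degree_lt hq0).2 hq)).symm
  rw [hqs] at hIP
  have h2 := transfer0 ψ (eval₂RingHom (eval₂RingHom inc (V * U 1)) (V * U 2))
    (Ideal.pow_right_mono hle m hIP)
  have hhom : (MvPolynomial.rename cyc P).IsHomogeneous d := hP.rename_isHomogeneous
  rw [cyc_eq inc U hV, eval_smul hhom] at h2
  refine hE _ hhom ?_ ?_
  · intro h3
    exact hne (MvPolynomial.rename_injective _ cyc.injective (by rw [h3, map_zero]))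
  · have h4 : MvPolynomial.eval₂Hom inc U (MvPolynomial.rename cyc P) =
        U 0 ^ d * (V ^ d * MvPolynomial.eval₂Hom inc U (MvPolynomial.rename cyc P)) := by
      rw [← mul_assoc, ← mul_pow, mul_comm (U 0) V, hV, one_pow, one_mul]
    rw [h4]
    exact I.mul_mem_left _ (hI h2)

end generic

theorem wr_zero {L : Type} [Field L] {a b : PowerSeries L} (ha : PowerSeries.coeff 1 a = 0) :
    PowerSeries.coeff 1 (a * b) * PowerSeries.coeff 0 b -
      PowerSeries.coeff 0 (a * b) * PowerSeries.coeff 1 b = 0 := by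
  rw [PowerSeries.coeff_one_mul, ha, PowerSeries.coeff_zero_eq_constantCoeff_apply,
    PowerSeries.coeff_zero_eq_constantCoeff_apply, map_mul]
  ring

theorem x_der_ne {K : Type} [Field K] {τ : ℝ} (h0 : 0 < τ) (h1 : τ < 1) {φ : Lau K →+* PowerSeries K}
    (hφ : IsGerm φ) {V : HR K} (hV : V * theta K τ 0 = 1) :
    PowerSeries.coeff 1 (hat φ (V * theta K τ 1)) ≠ 0 := by
  intro hx1
  have e1 : hat φ (V * theta K τ 1) * hat φ (theta K τ 0) = hat φ (theta K τ 1) := by
    rw [← map_mul]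
    congr 1
    calc V * theta K τ 1 * theta K τ 0 = V * theta K τ 0 * theta K τ 1 := by ring
      _ = theta K τ 1 := by rw [hV, one_mul]
  have e2 := wronski_ne hφ h0 h1
  rw [← e1] at e2
  exact e2 (wr_zero hx1)

open Polynomial in
theorem key_coll {p : ℕ} {r m d : ℕ} {τ : ℝ} (h0 : 0 < τ) (h1 : τ < 1)
    (h : EmpG p (fun _ : Unit => r) (fun _ => m) (Tri d τ)) :
    ∃ (L : Type) (_ : Field L) (_ : CharP L p) (c : L) (a : Fin r → L),
      ∀ P : MvPolynomial (Fin 3) L, P.IsHomogeneous d →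
        (MvPolynomial.aeval ![C X, X, 1] : MvPolynomial (Fin 3) L →ₐ[L] L[X][X]) P ∈
          (Ideal.span {X - C (∑ j : Fin r, C (a j) * X ^ (j : ℕ)), C ((X - C c) ^ r)} :
            Ideal L[X][X]) ^ m →
        P = 0 := by
  obtain ⟨K, _, _, φ', hφ', hE⟩ := key_general h0 h1 h
  have hφ : IsGerm (φ' ()) := hφ' ()
  obtain ⟨V, hV⟩ : ∃ V : HR K, V * tube K τ (3 * d + 4) 0 = 1 := by
    rw [tube_zero]
    obtain ⟨u, hu⟩ := theta0_isUnit (K := K) h0 h1
    exact ⟨↑u⁻¹, by rw [← hu]; exact Units.inv_mul u⟩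
  have hx : PowerSeries.coeff 1 (hat (φ' ()) (V * tube K τ (3 * d + 4) 1)) ≠ 0 := by
    rw [tube_one]
    exact x_der_ne h0 h1 hφ (by rw [← tube_zero K τ (3 * d + 4)]; exact hV)
  have hle : J (hat (φ' ())) r ^ m ≤ CI (J (φ' ()) r ^ m) := by
    rw [J_hat]
    exact CI_pow_le _ _
  exact ⟨HK K, inferInstance, inferInstance,
    coll_gen incl (tube K τ (3 * d + 4)) hV (hat (φ' ())) (hat_incl hφ.const) hx hle
      fun g hg hne hmem => hE g hg hne fun _ a => hmem a⟩

end Pool.Agent.TH716.CF
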