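import Pool.Agent.TH716.CF.Trans

/-! Emptiness for powers of curvilinear ideals at germs in the torus; monomial changes. -/

set_option autoImplicit false

namespace Pool.Agent.TH716.CF

open Pool.Agent.TH603.EL

/-- a ring homomorphism to power series given by a smooth germ that is a graph over the
first axis -/
structure IsGerm {K : Type} [Field K] (φ : Lau K →+* PowerSeries K) : Prop where
  const : ∀ c : K, φ (AddMonoidAlgebra.single 0 c) = PowerSeries.C c
  der : PowerSeries.coeff 1 (φ (AddMonoidAlgebra.single (1, 0) 1)) ≠ 0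

/-- in characteristic `p`, for some germs, no nonzero Laurent polynomial with exponents in `S` is
in the `w i`-th power of the ideal of the curvilinear scheme of length `r i` for all `i` -/
def EmpG (p : ℕ) {ι : Type} (r w : ι → ℕ) (S : Set (ℤ × ℤ)) : Prop :=
  ∃ (K : Type) (_ : Field K) (_ : CharP K p) (φ : ι → (Lau K →+* PowerSeries K)),
    (∀ i, IsGerm (φ i)) ∧ ∀ f : Lau K, (∀ m, f.coeff m ≠ 0 → m ∈ S) →
      (∀ i, f ∈ J (φ i) (r i) ^ w i) → f = 0

variable {p : ℕ} {ι : Type} {r w : ι → ℕ} {S S' : Set (ℤ × ℤ)}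

theorem EmpG.mono (h : EmpG p r w S') (hS : S ⊆ S') : EmpG p r w S := by
  obtain ⟨K, _, _, φ, hφ, hf⟩ := h
  exact ⟨K, _, inferInstance, φ, hφ, fun f h1 h2 => hf f (fun m hm => hS (h1 m hm)) h2⟩

/-- the shear of the exponents -/
def sh (k : ℤ) : ℤ × ℤ →+ ℤ × ℤ where
  toFun m := (m.1 + k * m.2, m.2)
  map_zero' := by simp
  map_add' m m' := by ext <;> simp; ring

theorem sh_injective (k : ℤ) : Function.Injective (sh k) := by
  rintro ⟨a, b⟩ ⟨a', b'⟩ h
  simp only [sh, AddMonoidHom.coe_mk, ZeroHom.coe_mk, Prod.mk.injEq] at h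
  obtain ⟨h1, h2⟩ := h
  subst h2
  ext
  · simp only; linarith
  · rfl

theorem EmpG.shear (k : ℤ) (h : EmpG p r w S') (hS : ∀ m ∈ S, (m.1 + k * m.2, m.2) ∈ S') :
    EmpG p r w S := by
  obtain ⟨K, _, _, φ, hφ, hf⟩ := h
  let Φ : Lau K →+* Lau K := AddMonoidAlgebra.mapDomainRingHom K (sh k)
  have hΦ : ∀ f, Φ f = AddMonoidAlgebra.mapDomain (sh k) f := fun f => rfl
  refine ⟨K, _, inferInstance, fun i => (φ i).comp Φ, fun i => ⟨fun c => ?_, ?_⟩, ?_⟩
  · rw [RingHom.comp_apply, hΦ, AddMonoidAlgebra.mapDomain_single, map_zero]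
    exact (hφ i).const c
  · rw [RingHom.comp_apply, hΦ, AddMonoidAlgebra.mapDomain_single]
    have : sh k (1, 0) = (1, 0) := by simp [sh]
    rw [this]
    exact (hφ i).der
  · intro f h1 h2
    have h3 : Φ f = 0 := by
      apply hf
      · intro m hm
        rw [hΦ, AddMonoidAlgebra.coeff_mapDomain] at hm
        have h4 := Finsupp.mapDomain_support (Finsupp.mem_support_iff.2 hm)
        rw [Finset.mem_image] at h4
        obtain ⟨m', hm', rfl⟩ := h4
        exact hS m' (h1 m' (Finsupp.mem_support_iff.1 hm'))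
      · intro i
        exact transfer0 (φ i) Φ (h2 i)
    apply AddMonoidAlgebra.mapDomain_injective (sh_injective k)
    rw [← hΦ, ← hΦ, h3, map_zero]

end Pool.Agent.TH716.CF
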