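import Pool.Agent.TH716.CF.Key

/-! The key lemma for points of the plane, in any characteristic. -/

set_option autoImplicit false

namespace Pool.Agent.TH716.CF

open MvPolynomial Pool.Agent.TH603.EL

theorem key_points {p : ℕ} {ι : Type} {w : ι → ℕ} {d : ℕ} {τ : ℝ} (h0 : 0 < τ) (h1 : τ < 1)
    (h : EmpG p (fun _ => 1) w (Tri d τ)) :
    ∃ (L : Type) (_ : Field L) (_ : CharP L p) (P : ι → Fin 2 → L),
      ∀ F : MvPolynomial (Fin 3) L, F.IsHomogeneous d →
        (∀ i, F ∈ (Ideal.span {X 1 - C (P i 0) * X 0, X 2 - C (P i 1) * X 0} :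
          Ideal (MvPolynomial (Fin 3) L)) ^ w i) → F = 0 := by
  obtain ⟨K, _, _, φ, hφ, hE⟩ := key_proj h0 h1 h
  let U : ZMod 3 → HR K := tube K τ (3 * d + 4)
  let c : ι → ZMod 3 → HK K := fun i l => PowerSeries.coeff 0 (hat (φ i) (U l))
  refine ⟨HK K, inferInstance, inferInstance, fun i => ![c i 1 / c i 0, c i 2 / c i 0], ?_⟩
  intro F hF hI
  let e : Fin 3 ≃ ZMod 3 := Equiv.refl (Fin 3)
  let ρ : MvPolynomial (Fin 3) (HK K) →+* MvPolynomial (ZMod 3) (HK K) :=
    (rename e : MvPolynomial (Fin 3) (HK K) →ₐ[HK K] MvPolynomial (ZMod 3) (HK K))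
  have hc0 : ∀ i, c i 0 ≠ 0 := by
    intro i
    show PowerSeries.coeff 0 (hat (φ i) (tube K τ (3 * d + 4) 0)) ≠ 0
    rw [tube_zero]
    exact val0_ne h0 h1
  have hlin : ∀ (i : ι) (l : ZMod 3), (X l - C (c i l / c i 0) * X 0 :
      MvPolynomial (ZMod 3) (HK K)) ∈ J ((hat (φ i)).comp (ev U)) 1 := by
    intro i l
    rw [mem_J]
    intro n hn
    have hn0 : n = 0 := by omega
    subst hn0
    rw [RingHom.comp_apply, map_sub, map_mul, ev_X, ev_C, ev_X, map_sub, map_mul,
      hat_incl (hφ i).const, map_sub, PowerSeries.coeff_C_mul]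
    show c i l - c i l / c i 0 * c i 0 = 0
    rw [div_mul_cancel₀ _ (hc0 i), sub_self]
  have hρ : ρ F = 0 := by
    apply hE _ (hF.rename_isHomogeneous)
    intro i
    have h2 : (Ideal.span {X 1 - C (c i 1 / c i 0) * X 0, X 2 - C (c i 2 / c i 0) * X 0} :
        Ideal (MvPolynomial (Fin 3) (HK K))) ≤ (J ((hat (φ i)).comp (ev U)) 1).comap ρ := by
      rw [Ideal.span_le]
      have e1 : ∀ (l : Fin 3) (a : HK K), ρ (X l - C a * X 0) = X (e l) - C a * X (e 0) := by
        intro l a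
        simp only [ρ, RingHom.coe_coe, map_sub, map_mul, rename_X, rename_C]
      rintro x (rfl | rfl)
      · show ρ _ ∈ J _ _
        rw [e1]
        exact hlin i 1
      · show ρ _ ∈ J _ _
        rw [e1]
        exact hlin i 2
    exact Ideal.le_comap_pow ρ (w i) (Ideal.pow_right_mono h2 _ (hI i))
  exact rename_injective _ e.injective (by rw [map_zero]; exact hρ)

end Pool.Agent.TH716.CF
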