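import Pool.Agent.TH716.CF.Flat

/-! The triangle of the key lemma. -/

set_option autoImplicit false

namespace Pool.Agent.TH716.CF

/-- the triangle of the tube at the radius `τ` -/
def Tri (d : ℕ) (τ : ℝ) : Set (ℤ × ℤ) :=
  {m | 0 ≤ m.2 ∧ -(((d : ℝ) - 3 * m.2) * (1 + τ)) ≤ m.1 ∧ (m.1 : ℝ) ≤ ((d : ℝ) - 3 * m.2) * (2 - τ)}

end Pool.Agent.TH716.CF
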