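import Mathlib

/-! A unimodular matrix of binomial coefficients, in any characteristic. -/

set_option autoImplicit false

namespace Pool.Agent.TH716.CF

open Polynomial

theorem vandI {F : Type*} [Field F] {B : Finset ℕ} {b0 T : ℕ}
    (hB : ∀ b ∈ B, b0 ≤ b ∧ b ≤ b0 + T) {v : ℕ → F}
    (h : ∀ l ≤ T, ∑ b ∈ B, (b.choose l : F) * v b = 0) : ∀ b ∈ B, v b = 0 := by
  classical
  set P : F[X] := ∑ b ∈ B, C (v b) * (1 + X) ^ (b - b0) with hP
  have hdeg : P.natDegree ≤ T := by
    apply natDegree_sum_le_of_forall_le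
    intro b hb
    have h1 : (1 + X : F[X]).natDegree ≤ 1 := by
      rw [add_comm]
      exact natDegree_X_add_C (1 : F) |>.le
    calc (C (v b) * (1 + X : F[X]) ^ (b - b0)).natDegree
        ≤ ((1 + X : F[X]) ^ (b - b0)).natDegree := natDegree_C_mul_le _ _
      _ ≤ (b - b0) * (1 + X : F[X]).natDegree := natDegree_pow_le
      _ ≤ (b - b0) * 1 := Nat.mul_le_mul_left _ h1
      _ ≤ T := by have := hB b hb; omega
  have hQ : (1 + X) ^ b0 * P = ∑ b ∈ B, C (v b) * (1 + X) ^ b := by
    rw [hP, Finset.mul_sum]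
    apply Finset.sum_congr rfl
    intro b hb
    have := hB b hb
    obtain ⟨k, rfl⟩ := Nat.exists_eq_add_of_le this.1
    rw [Nat.add_sub_cancel_left, pow_add]
    ring
  have hdvd : (X : F[X]) ^ (T + 1) ∣ (1 + X) ^ b0 * P := by
    rw [X_pow_dvd_iff]
    intro l hl
    rw [hQ, finsetSum_coeff, ← h l (by omega)]
    apply Finset.sum_congr rfl
    intro b _
    rw [coeff_C_mul, coeff_one_add_X_pow, mul_comm]
  have hcop : IsCoprime ((X : F[X]) ^ (T + 1)) ((1 + X) ^ b0) := by
    apply IsCoprime.pow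
    exact ⟨-1, 1, by ring⟩
  have hP0 : P = 0 := by
    by_contra hne
    have h1 := natDegree_le_of_dvd (hcop.dvd_of_dvd_mul_left hdvd) hne
    rw [natDegree_X_pow] at h1
    omega
  intro b hb
  have h1 : (P.comp (X - 1)).coeff (b - b0) = 0 := by rw [hP0]; simp
  have h2 : P.comp (X - 1) = ∑ b ∈ B, C (v b) * X ^ (b - b0) := by
    rw [hP, sum_comp]
    apply Finset.sum_congr rfl
    intro b _
    simp
  rw [h2, finsetSum_coeff, Finset.sum_eq_single b] at h1
  · simpa using h1
  · intro c hc hcb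
    rw [coeff_C_mul, coeff_X_pow, if_neg, mul_zero]
    have h3 := hB b hb
    have h4 := hB c hc
    omega
  · intro h3
    exact absurd hb h3

end Pool.Agent.TH716.CF
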