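import Pool.Agent.TH716.CF.Emp
import Pool.Agent.TH716.CF.Vand
import Pool.Agent.TH603.EL.Scal1

/-! Flattening of exponents whose columns are intervals, in any characteristic. -/

set_option autoImplicit false

namespace Pool.Agent.TH716.CF

open Pool.Agent.TH603.EL Pool.Agent.TH603.EL.Scal1

section
variable {K : Type} [Field K]

/-- the coefficient as an additive map -/
noncomputable def cfa (a : ℝ) (i j : ℤ) : HR K →+ K where
  toFun x := cf x a i j
  map_zero' := by simp [cf]
  map_add' x y := by simp [cf]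

theorem cfa_apply (a : ℝ) (i j : ℤ) (x : HR K) : cfa a i j x = cf x a i j := rfl

theorem cf_incl_mul_tz (c : HK K) (s a : ℝ) (i j k l : ℤ) :
    cf (incl c * tz K s k l) a i j = if i = k ∧ j = l then c.coeff (a - s) else 0 := by
  rw [mul_comm, cf_tz_mul, cf_incl]
  simp only [sub_eq_zero]

/-- the image `1 + t * Y` -/
noncomputable def vv (K : Type) [Field K] : HR K := 1 + tz K 1 0 1

theorem vv_isUnit : IsUnit (vv K) := by
  apply HahnSeries.isUnit_of_orderTop_pos
  have h : vv K - 1 = tz K 1 0 1 := by unfold vv; ring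
  rw [h]
  unfold tz
  rw [HahnSeries.orderTop_single]
  · norm_num
  · intro h
    have := congrArg (fun u : Lau K => u.coeff (0, 1)) h
    simp at this

/-- the image of `Y` as a unit -/
noncomputable def vu (K : Type) [Field K] : (HR K)ˣ := (vv_isUnit (K := K)).unit

theorem vu_val : ((vu K : (HR K)ˣ) : HR K) = vv K := rfl

/-- the images of the monomials -/
noncomputable def mz (K : Type) [Field K] : Multiplicative (ℤ × ℤ) →* HR K where
  toFun m := tz K 0 m.toAdd.1 0 * ((vu K ^ m.toAdd.2 : (HR K)ˣ) : HR K)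
  map_one' := by
    rw [toAdd_one, Prod.fst_zero, Prod.snd_zero, zpow_zero, Units.val_one, mul_one]
    exact tz_zero
  map_mul' m m' := by
    rw [toAdd_mul, Prod.fst_add, Prod.snd_add, zpow_add, Units.val_mul,
      show (tz K 0 (m.toAdd.1 + m'.toAdd.1) 0 : HR K) = tz K 0 m.toAdd.1 0 * tz K 0 m'.toAdd.1 0 by
        rw [tz_mul_tz]; congr 1 <;> simp]
    ring

/-- the substitution `z -> z`, `Y -> 1 + t * Y` -/
noncomputable def Fl (K : Type) [Field K] : Lau (HK K) →+* HR K :=
  AddMonoidAlgebra.liftNCRingHom incl (mz K) (fun _ _ => Commute.all _ _)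

theorem Fl_single (m : ℤ × ℤ) (c : HK K) : Fl K (AddMonoidAlgebra.single m c) =
    incl c * (tz K 0 m.1 0 * ((vu K ^ m.2 : (HR K)ˣ) : HR K)) := by
  unfold Fl
  rw [AddMonoidAlgebra.liftNCRingHom_single]
  rfl

theorem tz_vv_pow (i : ℤ) (b : ℕ) : tz K 0 i 0 * vv K ^ b =
    ∑ k ∈ Finset.range (b + 1), b.choose k • tz K k i k := by
  unfold vv
  rw [add_comm, add_pow, Finset.mul_sum]
  apply Finset.sum_congr rfl
  intro k _
  rw [one_pow, mul_one, tz_pow, ← mul_assoc, tz_mul_tz, nsmul_eq_mul, mul_comm]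
  congr 2
  · simp
  · simp
  · simp

theorem cf_Fl_single (i : ℤ) (b : ℕ) (c : HK K) (a : ℝ) (i' : ℤ) (j : ℕ) :
    cf (Fl K (AddMonoidAlgebra.single (i, (b : ℤ)) c)) a i' j =
      if i = i' then (b.choose j : K) * c.coeff (a - j) else 0 := by
  rw [Fl_single]
  simp only [zpow_natCast, Units.val_pow_eq_pow_val, vu_val]
  rw [tz_vv_pow, Finset.mul_sum, ← cfa_apply, map_sum]
  have h1 : ∀ k ∈ Finset.range (b + 1), cfa a i' j (incl c * b.choose k • tz K k i k) =
      if k = j then (if i = i' then (b.choose j : K) * c.coeff (a - j) else 0) else 0 := by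
    intro k _
    rw [mul_smul_comm, map_nsmul, cfa_apply, cf_incl_mul_tz]
    by_cases hk : k = j
    · subst hk
      by_cases hi : i = i'
      · subst hi; simp
      · rw [if_neg (by rintro ⟨h, _⟩; exact hi h.symm), if_pos rfl, if_neg hi, smul_zero]
    · rw [if_neg (by rintro ⟨_, h⟩; exact hk (by exact_mod_cast h.symm)), if_neg hk, smul_zero]
  rw [Finset.sum_congr rfl h1, Finset.sum_ite_eq']
  by_cases hj : j ∈ Finset.range (b + 1)
  · rw [if_pos hj]
  · rw [if_neg hj]
    have : b.choose j = 0 := Nat.choose_eq_zero_of_lt (by simpa using hj)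
    rw [this]
    simp

theorem cf_Fl_single_neg (i : ℤ) (b : ℕ) (c : HK K) (a : ℝ) (i' : ℤ) {j : ℤ} (hj : j < 0) :
    cf (Fl K (AddMonoidAlgebra.single (i, (b : ℤ)) c)) a i' j = 0 := by
  rw [Fl_single]
  simp only [zpow_natCast, Units.val_pow_eq_pow_val, vu_val]
  rw [tz_vv_pow, Finset.mul_sum, ← cfa_apply, map_sum]
  apply Finset.sum_eq_zero
  intro k _
  rw [mul_smul_comm, map_nsmul, cfa_apply, cf_incl_mul_tz, if_neg, smul_zero]
  rintro ⟨_, h⟩
  omega

theorem eq_zero_of_coeff {M R : Type*} [Semiring R] {f : AddMonoidAlgebra R M}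
    (h : ∀ m, f.coeff m = 0) : f = 0 := by
  ext m
  rw [h m]
  rfl

/-- the rows of the exponents in the column `i` -/
noncomputable def col (f : Lau (HK K)) (i : ℤ) : Finset ℕ :=
  (f.coeff.support.filter (fun m => m.1 = i)).image (fun m => m.2.toNat)

theorem sum_single_coeff {M R : Type*} [Semiring R] (f : AddMonoidAlgebra R M) :
    ∑ m ∈ f.coeff.support, AddMonoidAlgebra.single m (f.coeff m) = f := by
  ext m
  rw [AddMonoidAlgebra.coeff_sum, Finsupp.finsetSum_apply]
  classical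
  simp only [AddMonoidAlgebra.coeff_single, Finsupp.single_apply]
  rw [Finset.sum_ite_eq']
  split_ifs with h
  · rfl
  · exact (Finsupp.notMem_support_iff.1 h).symm

theorem cf_Fl {f : Lau (HK K)} (hf : ∀ m ∈ f.coeff.support, 0 ≤ m.2) (a : ℝ) (i : ℤ) (j : ℕ) :
    cf (Fl K f) a i j =
      ∑ b ∈ col f i, (b.choose j : K) * (f.coeff (i, (b : ℤ))).coeff (a - j) := by
  classical
  have h1 : ∀ m ∈ f.coeff.support, cfa a i j (Fl K (AddMonoidAlgebra.single m (f.coeff m))) =
      if m.1 = i then (m.2.toNat.choose j : K) *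
        (f.coeff (i, (m.2.toNat : ℤ))).coeff (a - j) else 0 := by
    intro m hm
    have h2 : m = (m.1, (m.2.toNat : ℤ)) := by
      ext
      · rfl
      · simp only; have := hf m hm; omega
    rw [cfa_apply]
    conv_lhs => rw [h2]
    rw [cf_Fl_single]
    split_ifs with h3
    · rw [h3]
    · rfl
  conv_lhs => rw [← sum_single_coeff f]
  rw [map_sum, ← cfa_apply, map_sum, Finset.sum_congr rfl h1, ← Finset.sum_filter]
  unfold col
  rw [Finset.sum_image]
  intro m hm m' hm' h
  rw [Finset.mem_coe, Finset.mem_filter] at hm hm'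
  have h3 := hf m hm.1
  have h4 := hf m' hm'.1
  simp only at h
  ext
  · rw [hm.2, hm'.2]
  · omega

theorem cf_Fl_neg {f : Lau (HK K)} (hf : ∀ m ∈ f.coeff.support, 0 ≤ m.2) (a : ℝ) (i : ℤ) {j : ℤ}
    (hj : j < 0) : cf (Fl K f) a i j = 0 := by
  conv_lhs => rw [← sum_single_coeff f]
  rw [map_sum, ← cfa_apply, map_sum]
  apply Finset.sum_eq_zero
  intro m hm
  have h2 : m = (m.1, (m.2.toNat : ℤ)) := by
    ext
    · rfl
    · simp only; have := hf m hm; omega
  rw [cfa_apply, h2]
  exact cf_Fl_single_neg _ _ _ _ _ hj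

theorem mem_col {f : Lau (HK K)} (hf : ∀ m ∈ f.coeff.support, 0 ≤ m.2) {i : ℤ} {b : ℕ} :
    b ∈ col f i ↔ f.coeff (i, (b : ℤ)) ≠ 0 := by
  unfold col
  rw [Finset.mem_image]
  constructor
  · rintro ⟨m, hm, rfl⟩
    rw [Finset.mem_filter] at hm
    have h1 := hf m hm.1
    have h2 : ((i, (m.2.toNat : ℤ)) : ℤ × ℤ) = m := by
      ext
      · exact hm.2.symm
      · simp only; omega
    rw [h2]
    exact Finsupp.mem_support_iff.1 hm.1
  · intro h
    exact ⟨(i, (b : ℤ)), by rw [Finset.mem_filter]; exact ⟨Finsupp.mem_support_iff.2 h, rfl⟩,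
      by simp⟩

/-- columnwise vanishing -/
theorem col_vanish {f : Lau (HK K)} {i : ℤ} (hne : (col f i).Nonempty) {a : ℝ}
    (h : ∀ l ≤ (col f i).max' hne - (col f i).min' hne,
      ∑ b ∈ col f i, (b.choose l : K) * (f.coeff (i, (b : ℤ))).coeff a = 0) :
    ∀ b ∈ col f i, (f.coeff (i, (b : ℤ))).coeff a = 0 := by
  refine vandI (b0 := (col f i).min' hne) (T := (col f i).max' hne - (col f i).min' hne)
    (v := fun b => (f.coeff (i, (b : ℤ))).coeff a) ?_ h
  intro b hb
  have h1 := (col f i).min'_le b hb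
  have h2 := (col f i).le_max' b hb
  omega

theorem Fl_ne_zero {f : Lau (HK K)} (hf : ∀ m ∈ f.coeff.support, 0 ≤ m.2) (hne : f ≠ 0) :
    Fl K f ≠ 0 := by
  intro h0
  apply hne
  apply eq_zero_of_coeff
  intro m
  by_contra hm'
  have h1 := hf m (Finsupp.mem_support_iff.2 hm')
  have h2 : m = (m.1, (m.2.toNat : ℤ)) := by
    ext
    · rfl
    · simp only; omega
  rw [h2] at hm'
  have h3 : m.2.toNat ∈ col f m.1 := (mem_col hf).2 hm'
  apply hm'
  ext a
  rw [HahnSeries.coeff_zero]
  refine col_vanish ⟨_, h3⟩ ?_ _ h3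
  intro l _
  have h4 := cf_Fl hf (a + l) m.1 l
  rw [h0, add_sub_cancel_right] at h4
  rw [← h4]
  simp [cf]

theorem Fl_lead {f : Lau (HK K)} (hf : ∀ m ∈ f.coeff.support, 0 ≤ m.2) (hne : f ≠ 0) :
    ∃ a : ℝ, (Fl K f).coeff a ≠ 0 ∧ ∀ i j : ℤ, cf (Fl K f) a i j ≠ 0 →
      ∃ b T : ℤ, f.coeff (i, b) ≠ 0 ∧ f.coeff (i, b + T) ≠ 0 ∧ 0 ≤ j ∧ j ≤ T := by
  have h0 := Fl_ne_zero hf hne
  refine ⟨(Fl K f).order, fun h => h0 (HahnSeries.coeff_order_eq_zero.1 h), ?_⟩
  have hlow : ∀ a < (Fl K f).order, ∀ i j, cf (Fl K f) a i j = 0 := by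
    intro a ha i j
    unfold cf
    rw [HahnSeries.coeff_eq_zero_of_lt_order ha]
    simp
  intro i j hij
  by_cases hj : j < 0
  · exact absurd (cf_Fl_neg hf _ i hj) hij
  obtain ⟨l, rfl⟩ := Int.eq_ofNat_of_zero_le (not_lt.1 hj)
  have hcol : (col f i).Nonempty := by
    by_contra hcon
    rw [Finset.not_nonempty_iff_eq_empty] at hcon
    apply hij
    rw [cf_Fl hf, hcon, Finset.sum_empty]
  have hmin := (mem_col hf).1 ((col f i).min'_mem hcol)
  have hmax := (mem_col hf).1 ((col f i).max'_mem hcol)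
  have hle : (col f i).min' hcol ≤ (col f i).max' hcol := (col f i).min'_le_max' hcol
  refine ⟨((col f i).min' hcol : ℤ), ((col f i).max' hcol : ℤ) - ((col f i).min' hcol : ℤ), hmin,
    ?_, by positivity, ?_⟩
  · rw [add_sub_cancel]; exact hmax
  · by_contra hcon
    push Not at hcon
    apply hij
    rw [cf_Fl hf]
    apply Finset.sum_eq_zero
    intro b hb
    rw [col_vanish hcol _ b hb, mul_zero]
    intro k hk
    have h1 := cf_Fl hf ((Fl K f).order - l + k) i k
    rw [hlow, add_sub_cancel_right] at h1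
    · exact h1.symm
    · have : (k : ℝ) < l := by
        have h2 : k < l := by omega
        exact_mod_cast h2
      linarith

end

instance charP_hahn {K : Type} [Field K] (p : ℕ) [CharP K p] : CharP (HK K) p :=
  charP_of_injective_ringHom (f := (HahnSeries.C : K →+* HK K)) HahnSeries.C_injective p

theorem hat_incl {K : Type} [Field K] {φ : Lau K →+* PowerSeries K}
    (hφ : ∀ c : K, φ (AddMonoidAlgebra.single 0 c) = PowerSeries.C c) (c : HK K) :
    hat φ (incl c) = PowerSeries.C c := by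
  ext n a
  rw [coeff_hat]
  have h1 : (incl c).coeff a = AddMonoidAlgebra.single 0 (c.coeff a) := rfl
  rw [h1, hφ, PowerSeries.coeff_C, PowerSeries.coeff_C]
  split_ifs
  · rfl
  · rfl

/-- a homomorphism to Hahn series under which constants are constant pushes germs to germs -/
theorem IsGerm.push {K : Type} [Field K] {φ : Lau K →+* PowerSeries K} (hφ : IsGerm φ) :
    IsGerm ((hat φ).comp (Fl K)) where
  const c := by
    rw [RingHom.comp_apply, Fl_single, Prod.fst_zero, Prod.snd_zero, zpow_zero, Units.val_one,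
      mul_one, tz_zero, mul_one]
    exact hat_incl hφ.const c
  der h := by
    apply hφ.der
    have h1 := congrArg (fun u : HK K => u.coeff 0) h
    simp only [HahnSeries.coeff_zero] at h1
    rw [RingHom.comp_apply, coeff_hat, Fl_single, zpow_zero, Units.val_one, mul_one, map_one,
      one_mul, coeff_tz] at h1
    exact h1

/-- **flattening**, columns are intervals -/
theorem EmpG.flat0 {p : ℕ} {ι : Type} {r w : ι → ℕ} {S S' : Set (ℤ × ℤ)} (h : EmpG p r w S')
    (hS : ∀ a b T k : ℤ, (a, b) ∈ S → (a, b + T) ∈ S → 0 ≤ k → k ≤ T → (a, k) ∈ S') :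
    EmpG p r w S := by
  obtain ⟨K, _, _, φ, hφ, hf⟩ := h
  refine ⟨HK K, inferInstance, inferInstance, fun i => (hat (φ i)).comp (Fl K),
    fun i => (hφ i).push, ?_⟩
  intro f h1 h2
  by_contra hne
  -- shift to nonnegative rows
  obtain ⟨N, hN⟩ : ∃ N : ℕ, ∀ m ∈ f.coeff.support, 0 ≤ m.2 + (N : ℤ) := by
    refine ⟨∑ m ∈ f.coeff.support, m.2.natAbs, fun m hm => ?_⟩
    have : m.2.natAbs ≤ ∑ m ∈ f.coeff.support, m.2.natAbs :=
      Finset.single_le_sum (f := fun m : ℤ × ℤ => m.2.natAbs) (fun _ _ => Nat.zero_le _) hm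
    omega
  set f' : Lau (HK K) := AddMonoidAlgebra.single (0, (N : ℤ)) 1 * f with hf'
  have hc : ∀ m : ℤ × ℤ, f'.coeff m = f.coeff (m.1, m.2 - N) := by
    intro m
    rw [hf', AddMonoidAlgebra.coeff_single_mul_apply, one_mul]
    congr 1
    ext
    · simp
    · simp; ring
  have hrow : ∀ m ∈ f'.coeff.support, 0 ≤ m.2 := by
    intro m hm
    rw [Finsupp.mem_support_iff, hc] at hm
    have := hN _ (Finsupp.mem_support_iff.2 hm)
    simp only at this
    omega
  have hne' : f' ≠ 0 := by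
    intro h3
    apply hne
    apply eq_zero_of_coeff
    intro m
    have h4 := hc (m.1, m.2 + N)
    rw [h3] at h4
    simp only [add_sub_cancel_right] at h4
    exact h4.symm
  obtain ⟨a, ha1, ha2⟩ := Fl_lead hrow hne'
  apply ha1
  apply hf
  · rintro ⟨i, j⟩ hm
    obtain ⟨b, T, hb, hT, hj0, hjT⟩ := ha2 i j hm
    rw [hc] at hb hT
    refine hS i (b - N) T j (h1 _ hb) ?_ hj0 hjT
    have := h1 _ hT
    simp only at this
    convert this using 2
    ring
  · intro i
    exact transfer (φ i) (Fl K) (Ideal.mul_mem_left _ _ (h2 i)) a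

end Pool.Agent.TH716.CF
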