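import Pool.Agent.TH716.CF.Defs
import Pool.Agent.TH603.EL.Lead
import Pool.Agent.TH603.EL.TubeH

/-! The key lemma for powers of curvilinear ideals, in any characteristic. -/

set_option autoImplicit false

namespace Pool.Agent.TH716.CF

open MvPolynomial Pool.Agent.TH603.EL

/-- the tube: no nonzero form has all its coefficients in the ideals -/
theorem key_general {p : ℕ} {ι : Type} {r w : ι → ℕ} {d : ℕ} {τ : ℝ} (h0 : 0 < τ) (h1 : τ < 1)
    (h : EmpG p r w (Tri d τ)) :
    ∃ (K : Type) (_ : Field K) (_ : CharP K p) (φ : ι → (Lau K →+* PowerSeries K)),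
      (∀ i, IsGerm (φ i)) ∧ ∀ g : MvPolynomial (ZMod 3) (HK K), g.IsHomogeneous d → g ≠ 0 →
        ¬ ∀ i a, (ev (tube K τ (3 * d + 4)) g).coeff a ∈ J (φ i) (r i) ^ w i := by
  have h' : EmpG p r w {m : ℤ × ℤ | ((m.1 + (-1) * m.2, m.2) : ℤ × ℤ) ∈ Tri d τ} :=
    h.shear (-1) (fun m hm => hm)
  obtain ⟨K, _, _, φ, hφ, hE⟩ := h'
  refine ⟨K, _, inferInstance, φ, hφ, ?_⟩
  intro g hg hne hall
  obtain ⟨a, ha, hb⟩ := tube_lead h0 h1 hg hne (s := 3 * d + 4) (by linarith)
  apply ha
  apply hE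
  · rintro ⟨i, j⟩ hm
    obtain ⟨h3, h4, h5⟩ := hb i j hm
    refine ⟨h3, ?_, ?_⟩
    · simp only
      push_cast
      linarith
    · simp only
      push_cast
      linarith
  · intro i
    exact hall i a

/-- a germ on the forms gives a germ on the coefficients -/
theorem key_proj {p : ℕ} {ι : Type} {r w : ι → ℕ} {d : ℕ} {τ : ℝ} (h0 : 0 < τ) (h1 : τ < 1)
    (h : EmpG p r w (Tri d τ)) :
    ∃ (K : Type) (_ : Field K) (_ : CharP K p) (φ : ι → (Lau K →+* PowerSeries K)),
      (∀ i, IsGerm (φ i)) ∧ ∀ g : MvPolynomial (ZMod 3) (HK K), g.IsHomogeneous d →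
        (∀ i, g ∈ J ((hat (φ i)).comp (ev (tube K τ (3 * d + 4)))) (r i) ^ w i) → g = 0 := by
  obtain ⟨K, _, _, φ, hφ, hE⟩ := key_general h0 h1 h
  refine ⟨K, _, inferInstance, φ, hφ, ?_⟩
  intro g hg hall
  by_contra hne
  exact hE g hg hne fun i a => transfer (φ i) (ev (tube K τ (3 * d + 4))) (hall i) a

section tubeval
variable {K : Type} [Field K] {τ : ℝ} {s : ℝ}

theorem low_tube (h0 : 0 < τ) (h1 : τ < 1) (hs : 0 ≤ s) (l : ZMod 3) : Low (tube K τ s l) 0 := by
  unfold tube
  apply Low.add (low_theta h0.le h1.le l)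
  split_ifs
  · exact (low_tz s 0 1).mono hs
  · exact low_zero 0

theorem tube_zero (K : Type) [Field K] (τ s : ℝ) : tube K τ s 0 = theta K τ 0 := by
  unfold tube
  rw [if_neg (by decide), add_zero]

theorem tube_one (K : Type) [Field K] (τ s : ℝ) : tube K τ s 1 = theta K τ 1 := by
  unfold tube
  rw [if_neg (by decide), add_zero]

theorem Low.coeff_hat {φ : Lau K →+* PowerSeries K} {x : HR K} {b : ℝ} (hx : Low x b) (n : ℕ) :
    Low (PowerSeries.coeff n (hat φ x)) b := by
  intro a ha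
  rw [CF.coeff_hat, hx a ha, map_zero, map_zero]

/-- the value of the first coordinate at the point of a germ is not zero -/
theorem val0_ne {φ : Lau K →+* PowerSeries K} (h0 : 0 < τ) (h1 : τ < 1) :
    PowerSeries.coeff 0 (hat φ (theta K τ 0)) ≠ 0 := by
  intro h
  have h2 := congrArg (fun u : HK K => u.coeff 0) h
  simp only [HahnSeries.coeff_zero] at h2
  rw [coeff_hat, coeff_theta0 h0 h1, map_one, PowerSeries.coeff_one, if_pos rfl] at h2
  exact one_ne_zero h2

/-- the image germ is a graph over the second coordinate -/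
theorem wronski_ne {φ : Lau K →+* PowerSeries K} (hφ : IsGerm φ) (h0 : 0 < τ) (h1 : τ < 1) :
    PowerSeries.coeff 1 (hat φ (theta K τ 1)) * PowerSeries.coeff 0 (hat φ (theta K τ 0)) -
      PowerSeries.coeff 0 (hat φ (theta K τ 1)) * PowerSeries.coeff 1 (hat φ (theta K τ 0)) ≠
        0 := by
  intro h
  have h2 := congrArg (fun u : HK K => u.coeff (τ + 0)) h
  simp only [HahnSeries.coeff_zero, HahnSeries.coeff_sub] at h2
  have l1 : Low (theta K τ 1) τ := low_theta1 h0 h1
  have l0 : Low (theta K τ 0) 0 := low_theta h0.le h1.le 0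
  rw [Low.coeff_mul (Low.coeff_hat l1 1) (Low.coeff_hat l0 0),
    Low.coeff_mul (Low.coeff_hat l1 0) (Low.coeff_hat l0 1), coeff_hat, coeff_hat, coeff_hat,
    coeff_hat, coeff_theta0 h0 h1, coeff_theta1 h0 h1, map_one, PowerSeries.coeff_one,
    PowerSeries.coeff_one, if_pos rfl, if_neg one_ne_zero, mul_one, mul_zero, sub_zero] at h2
  exact hφ.der h2

end tubeval

end Pool.Agent.TH716.CF
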