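import Pool.Agent.TH716.CF.Bd
import Pool.Agent.TH716.CF.KeyA
import Pool.Agent.TH716.CF.KeyB
import Pool.Agent.TH98.CF.Final

/-! Emptiness for points and for collisions of the plane, in any characteristic. -/

set_option autoImplicit false

namespace Pool.Agent.TH716.CF

theorem finalS : FinalS := by
  intro p hp ι _ r w hr S A B hS hw
  exact Pool.Agent.TH98.CF.EmpG_final hp hr A B hS hw

/-- **points**: `√n d < ∑ w` -/
theorem points_all {p : ℕ} (hp : p = 0 ∨ p.Prime) {n : ℕ} (hn : 9 ≤ n) {w : Fin n → ℕ} {d : ℕ}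
    (h : √(n : ℝ) * d < ((∑ i, w i : ℕ) : ℝ)) :
    ∃ (L : Type) (_ : Field L) (_ : CharP L p) (P : Fin n → Fin 2 → L),
      ∀ F : MvPolynomial (Fin 3) L, F.IsHomogeneous d →
        (∀ i, F ∈ (Ideal.span {MvPolynomial.X 1 - MvPolynomial.C (P i 0) * MvPolynomial.X 0,
          MvPolynomial.X 2 - MvPolynomial.C (P i 1) * MvPolynomial.X 0} :
            Ideal (MvPolynomial (Fin 3) L)) ^ w i) → F = 0 := by
  obtain ⟨τ, h0, h1, hE⟩ := strict finalS hp (r := fun _ : Fin n => 1) (w := w) (d := d)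
    (fun _ => le_rfl) (by simpa using hn) (by simpa using h)
  exact key_points h0 h1 hE

/-- **points, boundary case**: `n = k ^ 2` and `k d ≤ ∑ w` -/
theorem points_square {p : ℕ} (hp : p = 0 ∨ p.Prime) {k : ℕ} (hk : 4 ≤ k) {w : Fin (k ^ 2) → ℕ}
    {d : ℕ} (hd : 0 < d) (h : k * d ≤ ∑ i, w i) :
    ∃ (L : Type) (_ : Field L) (_ : CharP L p) (P : Fin (k ^ 2) → Fin 2 → L),
      ∀ F : MvPolynomial (Fin 3) L, F.IsHomogeneous d →
        (∀ i, F ∈ (Ideal.span {MvPolynomial.X 1 - MvPolynomial.C (P i 0) * MvPolynomial.X 0,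
          MvPolynomial.X 2 - MvPolynomial.C (P i 1) * MvPolynomial.X 0} :
            Ideal (MvPolynomial (Fin 3) L)) ^ w i) → F = 0 := by
  obtain ⟨τ, h0, h1, hE⟩ := boundary finalS hp (r := fun _ : Fin (k ^ 2) => 1) (w := w) (d := d)
    (fun _ => le_rfl) hk (by simp) hd (by simpa using h)
  exact key_points h0 h1 hE

open Polynomial in
/-- **collisions**: `r > 9`, `d ≤ m √r` -/
theorem coll_all {p : ℕ} (hp : p = 0 ∨ p.Prime) {r m d : ℕ} (hr : 9 < r) (hm : 0 < m)
    (hd : (d : ℝ) ≤ m * √(r : ℝ)) :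
    ∃ (L : Type) (_ : Field L) (_ : CharP L p) (c : L) (a : Fin r → L),
      ∀ P : MvPolynomial (Fin 3) L, P.IsHomogeneous d →
        (MvPolynomial.aeval ![C X, X, 1] : MvPolynomial (Fin 3) L →ₐ[L] L[X][X]) P ∈
          (Ideal.span {X - C (∑ j : Fin r, C (a j) * X ^ (j : ℕ)), C ((X - C c) ^ r)} :
            Ideal L[X][X]) ^ m →
        P = 0 := by
  have hr0 : (0 : ℝ) < r := by exact_mod_cast (by omega : 0 < r)
  have hs : 0 < √(r : ℝ) := Real.sqrt_pos.2 hr0
  have hs2 : √(r : ℝ) * √(r : ℝ) = r := Real.mul_self_sqrt hr0.le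
  rcases lt_or_eq_of_le hd with hlt | heq
  · obtain ⟨τ, h0, h1, hE⟩ := strict finalS hp (r := fun _ : Unit => r) (w := fun _ => m) (d := d)
      (fun _ => by omega) (by simp; omega) (by
        simp only [Finset.univ_unique, Finset.sum_const, Finset.card_singleton, one_smul]
        push_cast
        calc √(r : ℝ) * d < √(r : ℝ) * (m * √(r : ℝ)) := mul_lt_mul_of_pos_left hlt hs
          _ = √(r : ℝ) * √(r : ℝ) * m := by ring
          _ = r * m := by rw [hs2])
    exact key_coll h0 h1 hE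
  · -- a perfect square
    have hd2 : d ^ 2 = m ^ 2 * r := by
      have h1 : (d : ℝ) ^ 2 = m ^ 2 * r := by
        rw [heq, mul_pow, sq (√(r : ℝ)), hs2]
      exact_mod_cast h1
    obtain ⟨k, rfl⟩ : m ∣ d := by
      rw [← Nat.pow_dvd_pow_iff (two_ne_zero)]
      exact ⟨r, hd2⟩
    have hrk : r = k ^ 2 := by
      rw [mul_pow] at hd2
      exact (Nat.eq_of_mul_eq_mul_left (by positivity) hd2).symm
    have hk : 4 ≤ k := by
      by_contra hcon
      have : k ^ 2 ≤ 3 ^ 2 := Nat.pow_le_pow_left (by omega) 2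
      omega
    obtain ⟨τ, h0, h1, hE⟩ := boundary finalS hp (r := fun _ : Unit => r) (w := fun _ => m)
      (d := m * k) (fun _ => by omega) hk (by simpa using hrk) (by positivity) (by
        simp only [Finset.univ_unique, Finset.sum_const, Finset.card_singleton, one_smul]
        rw [hrk]
        exact le_of_eq (by ring))
    exact key_coll h0 h1 hE

end Pool.Agent.TH716.CF
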