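import Pool.Agent.TH716.CF.Defs

/-! The strict case: `√(∑ r) d < ∑ r w`. -/

set_option autoImplicit false

namespace Pool.Agent.TH716.CF

/-- the final emptiness statement, as a hypothesis -/
def FinalS : Prop := ∀ {p : ℕ} (_ : p = 0 ∨ p.Prime) {ι : Type} [Fintype ι] {r w : ι → ℕ}
    (_ : ∀ i, 1 ≤ r i) {S : Set (ℤ × ℤ)} (A B : ℕ → ℤ)
    (_ : ∀ m ∈ S, 0 ≤ m.2 ∧ ∀ j : ℕ, (j : ℤ) ≤ m.2 → A j ≤ m.1 ∧ m.1 ≤ B j)
    (_ : ∀ j : ℕ, B j - A j < ∑ i, ((r i * (w i - j) : ℕ) : ℤ)), EmpG p r w S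

theorem sum_sub_le {ι : Type} [Fintype ι] (r w : ι → ℕ) (j : ℕ) :
    ((∑ i, r i * w i : ℕ) : ℝ) - ((∑ i, r i : ℕ) : ℝ) * j ≤
      ((∑ i, ((r i * (w i - j) : ℕ) : ℤ) : ℤ) : ℝ) := by
  push_cast
  rw [Finset.sum_mul, ← Finset.sum_sub_distrib]
  apply Finset.sum_le_sum
  intro i _
  have h1 : (w i : ℝ) - j ≤ ((w i - j : ℕ) : ℝ) := by
    have h2 : w i ≤ (w i - j) + j := by omega
    have h3 : (w i : ℝ) ≤ ((w i - j : ℕ) : ℝ) + j := by exact_mod_cast h2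
    linarith
  have h4 : (0 : ℝ) ≤ r i := Nat.cast_nonneg _
  have := mul_le_mul_of_nonneg_left h1 h4
  linarith

theorem strict (HF : FinalS) {p : ℕ} (hp : p = 0 ∨ p.Prime) {ι : Type} [Fintype ι] {r w : ι → ℕ}
    (hr : ∀ i, 1 ≤ r i) {d : ℕ} (hn : 9 ≤ ∑ i, r i)
    (h : √((∑ i, r i : ℕ) : ℝ) * d < ((∑ i, r i * w i : ℕ) : ℝ)) :
    ∃ τ : ℝ, 0 < τ ∧ τ < 1 ∧ EmpG p r w (Tri d τ) := by
  obtain ⟨n, hndef⟩ : ∃ n : ℝ, n = ((∑ i, r i : ℕ) : ℝ) := ⟨_, rfl⟩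
  have hn' : (9 : ℝ) ≤ n := by rw [hndef]; exact_mod_cast hn
  obtain ⟨s, hs⟩ : ∃ s, s = √n := ⟨_, rfl⟩
  have hs2 : s ^ 2 = n := by rw [hs]; exact Real.sq_sqrt (by linarith)
  have hs3 : 3 ≤ s := by
    rw [hs]
    apply Real.le_sqrt_of_sq_le
    linarith
  rw [← hndef, ← hs] at h
  have hd : (0 : ℝ) ≤ d := Nat.cast_nonneg d
  -- the slope
  obtain ⟨τ, hτ⟩ : ∃ τ : ℝ, τ = s - ((⌈3 * s⌉ - 1 : ℤ) : ℝ) / 3 := ⟨_, rfl⟩
  have hc1 : 3 * s ≤ ⌈3 * s⌉ := Int.le_ceil _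
  have hc2 : (⌈3 * s⌉ : ℝ) < 3 * s + 1 := Int.ceil_lt_add_one _
  have h0 : 0 < τ := by
    rw [hτ]; push_cast; linarith
  have h1 : τ < 1 := by
    rw [hτ]; push_cast; linarith
  obtain ⟨c, hc⟩ : ∃ c : ℤ, (c : ℝ) = 3 * s - 3 * (1 + τ) := ⟨⌈3 * s⌉ - 1 - 3, by
    rw [hτ]; push_cast; ring⟩
  refine ⟨τ, h0, h1, ?_⟩
  have e0 : EmpG p r w {m : ℤ × ℤ | 0 ≤ m.2 ∧ -((d : ℝ) * (1 + τ)) + 3 * s * m.2 ≤ m.1 ∧
      (m.1 : ℝ) ≤ -((d : ℝ) * (1 + τ)) + d * s - (s ^ 2 - 3 * s) * m.2} := by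
    refine HF hp hr (fun j => ⌈-((d : ℝ) * (1 + τ)) + 3 * s * j⌉)
      (fun j => ⌊-((d : ℝ) * (1 + τ)) + d * s - (s ^ 2 - 3 * s) * j⌋) ?_ ?_
    · rintro ⟨a, b⟩ ⟨g1, g2, g3⟩
      simp only at g1 g2 g3
      refine ⟨g1, fun j hj => ⟨Int.ceil_le.2 ?_, Int.le_floor.2 ?_⟩⟩
      · simp only at hj ⊢
        have hj' : (j : ℝ) ≤ b := by exact_mod_cast hj
        have : 3 * s * j ≤ 3 * s * b := mul_le_mul_of_nonneg_left hj' (by linarith)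
        linarith
      · simp only at hj ⊢
        have hj' : (j : ℝ) ≤ b := by exact_mod_cast hj
        have : (s ^ 2 - 3 * s) * j ≤ (s ^ 2 - 3 * s) * b :=
          mul_le_mul_of_nonneg_left hj' (by nlinarith)
        linarith
    · intro j
      have f1 := Int.le_ceil (-((d : ℝ) * (1 + τ)) + 3 * s * j)
      have f2 := Int.floor_le (-((d : ℝ) * (1 + τ)) + d * s - (s ^ 2 - 3 * s) * j)
      have f3 := sum_sub_le r w j
      rw [← hndef, ← hs2] at f3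
      have f4 : ((⌊-((d : ℝ) * (1 + τ)) + d * s - (s ^ 2 - 3 * s) * j⌋ -
          ⌈-((d : ℝ) * (1 + τ)) + 3 * s * j⌉ : ℤ) : ℝ) <
          ((∑ i, ((r i * (w i - j) : ℕ) : ℤ) : ℤ) : ℝ) := by
        rw [Int.cast_sub]
        linarith
      exact_mod_cast f4
  have e1 : EmpG p r w {m : ℤ × ℤ | ((m.1 - c * m.2, m.2) : ℤ × ℤ) ∈ Tri d τ} := by
    refine e0.flat0 ?_
    rintro a b T k ⟨g1, g2, g3⟩ ⟨g4, g5, g6⟩ hk hkT
    simp only at g1 g2 g3 g4 g5 g6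
    push_cast at g2 g3 g5 g6
    have hb : (0 : ℝ) ≤ b := by exact_mod_cast g1
    have hkT' : (k : ℝ) ≤ T := by exact_mod_cast hkT
    have hk0 : (0 : ℝ) ≤ k := by exact_mod_cast hk
    refine ⟨hk, ?_, ?_⟩
    · simp only
      have X2 : 0 ≤ (a : ℝ) + (d : ℝ) * (1 + τ) - 3 * s * (b + T) := by
        have : (a : ℝ) + (d : ℝ) * (1 + τ) - 3 * s * (b + T) =
            (a - (3 * s - 3 * (1 + τ)) * (b + T)) + ((d : ℝ) - 3 * (b + T)) * (1 + τ) := by ring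
        rw [this, ← hc]
        linarith
      have : 3 * s * k ≤ 3 * s * (b + T) := mul_le_mul_of_nonneg_left (by linarith) (by linarith)
      linarith
    · simp only
      have X2 : 0 ≤ (a : ℝ) + (d : ℝ) * (1 + τ) - 3 * s * (b + T) := by
        have : (a : ℝ) + (d : ℝ) * (1 + τ) - 3 * s * (b + T) =
            (a - (3 * s - 3 * (1 + τ)) * (b + T)) + ((d : ℝ) - 3 * (b + T)) * (1 + τ) := by ring
        rw [this, ← hc]
        linarith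
      have X1 : 0 ≤ (d : ℝ) * (2 - τ) + (3 * s - 9) * b - a := by
        have : (d : ℝ) * (2 - τ) + (3 * s - 9) * b - a =
            ((d : ℝ) - 3 * b) * (2 - τ) - (a - (3 * s - 3 * (1 + τ)) * b) := by ring
        rw [this, ← hc]
        linarith
      have e2 : 9 * (-((d : ℝ) * (1 + τ)) + d * s - (s ^ 2 - 3 * s) * T - a) =
          3 * s * ((d : ℝ) * (2 - τ) + (3 * s - 9) * b - a) +
          (3 * s - 9) * ((a : ℝ) + (d : ℝ) * (1 + τ) - 3 * s * (b + T)) := by ring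
      have p1 : 0 ≤ 3 * s * ((d : ℝ) * (2 - τ) + (3 * s - 9) * b - a) :=
        mul_nonneg (by linarith) X1
      have p2 : 0 ≤ (3 * s - 9) * ((a : ℝ) + (d : ℝ) * (1 + τ) - 3 * s * (b + T)) :=
        mul_nonneg (by linarith) X2
      have p3 : (s ^ 2 - 3 * s) * k ≤ (s ^ 2 - 3 * s) * T :=
        mul_le_mul_of_nonneg_left hkT' (by nlinarith)
      linarith
  refine e1.shear c ?_
  intro m hm
  show ((m.1 + c * m.2 - c * m.2, m.2) : ℤ × ℤ) ∈ Tri d τ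
  rw [add_sub_cancel_right]
  exact hm

end Pool.Agent.TH716.CF
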