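import Pool.Agent.TH603.EL.Low

/-! Transfer of powers of curvilinear ideals through Hahn series: no derivatives, any
characteristic. -/

set_option autoImplicit false

namespace Pool.Agent.TH716.CF

open Pool.Agent.TH603.EL

section CI
variable {B : Type} [CommRing B]

/-- Hahn series all of whose coefficients lie in `I` -/
def CI (I : Ideal B) : Ideal (HahnSeries ℝ B) where
  carrier := {x | ∀ a, x.coeff a ∈ I}
  add_mem' {x y} hx hy a := by
    rw [HahnSeries.coeff_add]
    exact I.add_mem (hx a) (hy a)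
  zero_mem' a := by
    rw [HahnSeries.coeff_zero]
    exact I.zero_mem
  smul_mem' c x hx a := by
    rw [smul_eq_mul, HahnSeries.coeff_mul]
    exact I.sum_mem fun ij _ => I.mul_mem_left _ (hx _)

theorem mem_CI {I : Ideal B} {x : HahnSeries ℝ B} : x ∈ CI I ↔ ∀ a, x.coeff a ∈ I := Iff.rfl

theorem CI_mul_le (I I' : Ideal B) : CI I * CI I' ≤ CI (I * I') := by
  rw [Ideal.mul_le]
  intro x hx y hy a
  rw [HahnSeries.coeff_mul]
  exact (I * I').sum_mem fun ij _ => Ideal.mul_mem_mul (hx _) (hy _)

theorem CI_pow_le (I : Ideal B) (w : ℕ) : CI I ^ w ≤ CI (I ^ w) := by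
  induction w with
  | zero => intro x _ a; simp
  | succ w ih =>
    rw [pow_succ, pow_succ]
    exact (Ideal.mul_mono_left ih).trans (CI_mul_le _ _)

theorem coeff_mul_sub {x y : HahnSeries ℝ B} {s t : Set ℝ} (hs : s.IsPWO) (ht : t.IsPWO)
    (hxs : x.support ⊆ s) (hyt : y.support ⊆ t) (a : ℝ) :
    (x * y).coeff a = ∑ ij ∈ Finset.antidiagonal hs ht a, x.coeff ij.1 * y.coeff ij.2 := by
  classical
  rw [HahnSeries.coeff_mul]
  apply Finset.sum_subset
  · intro ij h
    rw [Finset.mem_antidiagonal] at h ⊢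
    exact ⟨hxs h.1, hyt h.2.1, h.2.2⟩
  · intro ij h h'
    rw [Finset.mem_antidiagonal] at h h'
    by_cases h1 : x.coeff ij.1 = 0
    · rw [h1, zero_mul]
    · by_cases h2 : y.coeff ij.2 = 0
      · rw [h2, mul_zero]
      · exact absurd ⟨h1, h2, h.2.2⟩ h'

end CI

section hat
variable {B : Type} [CommRing B] {K : Type} [Field K]

/-- the `n`-th coefficient of the image -/
noncomputable def cn (φ : B →+* PowerSeries K) (n : ℕ) : B →+ K :=
  (PowerSeries.coeff n : PowerSeries K →ₗ[K] K).toAddMonoidHom.comp φ.toAddMonoidHom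

theorem cn_apply (φ : B →+* PowerSeries K) (n : ℕ) (b : B) :
    cn φ n b = PowerSeries.coeff n (φ b) := rfl

/-- the coefficientwise extension of a ring homomorphism to power series -/
noncomputable def hat (φ : B →+* PowerSeries K) :
    HahnSeries ℝ B →+* PowerSeries (HahnSeries ℝ K) where
  toFun x := PowerSeries.mk fun n => x.map (cn φ n)
  map_one' := by
    ext n a
    rw [PowerSeries.coeff_mk, HahnSeries.map_coeff, HahnSeries.coeff_one, PowerSeries.coeff_one]
    by_cases ha : a = 0
    · rw [if_pos ha, cn_apply, map_one, PowerSeries.coeff_one]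
      split_ifs
      · rw [ha, HahnSeries.coeff_one, if_pos rfl]
      · rw [HahnSeries.coeff_zero]
    · rw [if_neg ha, map_zero]
      split_ifs
      · rw [HahnSeries.coeff_one, if_neg ha]
      · rw [HahnSeries.coeff_zero]
  map_mul' x y := by
    ext n a
    rw [PowerSeries.coeff_mk, HahnSeries.map_coeff, HahnSeries.coeff_mul, map_sum,
      PowerSeries.coeff_mul, HahnSeries.coeff_sum]
    have h1 : ∀ p ∈ Finset.HasAntidiagonal.antidiagonal n,
        ((PowerSeries.coeff p.1) (PowerSeries.mk fun n => x.map (cn φ n)) *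
          (PowerSeries.coeff p.2) (PowerSeries.mk fun n => y.map (cn φ n))).coeff a =
        ∑ ij ∈ Finset.antidiagonal x.isPWO_support y.isPWO_support a,
          cn φ p.1 (x.coeff ij.1) * cn φ p.2 (y.coeff ij.2) := by
      intro p _
      rw [PowerSeries.coeff_mk, PowerSeries.coeff_mk,
        coeff_mul_sub x.isPWO_support y.isPWO_support]
      · rfl
      · intro b hb hb'
        rw [HahnSeries.mem_support, HahnSeries.map_coeff, hb', map_zero] at hb
        exact hb rfl
      · intro b hb hb'
        rw [HahnSeries.mem_support, HahnSeries.map_coeff, hb', map_zero] at hb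
        exact hb rfl
    rw [Finset.sum_congr rfl h1, Finset.sum_comm]
    apply Finset.sum_congr rfl
    intro ij _
    rw [cn_apply, map_mul, PowerSeries.coeff_mul]
    rfl
  map_zero' := by
    ext n a
    rw [PowerSeries.coeff_mk, HahnSeries.map_coeff]
    simp
  map_add' x y := by
    ext n a
    rw [PowerSeries.coeff_mk, HahnSeries.map_coeff, HahnSeries.coeff_add, map_add, map_add,
      PowerSeries.coeff_mk, PowerSeries.coeff_mk]
    rfl

theorem coeff_hat (φ : B →+* PowerSeries K) (x : HahnSeries ℝ B) (n : ℕ) (a : ℝ) :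
    (PowerSeries.coeff n (hat φ x)).coeff a = PowerSeries.coeff n (φ (x.coeff a)) := by
  show (PowerSeries.coeff n (PowerSeries.mk fun n => x.map (cn φ n))).coeff a = _
  rw [PowerSeries.coeff_mk, HahnSeries.map_coeff]
  rfl

/-- the ideal of a curvilinear scheme -/
noncomputable def J {A : Type} [CommRing A] {K : Type} [Field K] (φ : A →+* PowerSeries K) (r : ℕ) : Ideal A :=
  (Ideal.span {(PowerSeries.X : PowerSeries K) ^ r}).comap φ

theorem mem_J {A : Type} [CommRing A] {K : Type} [Field K] {φ : A →+* PowerSeries K} {r : ℕ}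
    {f : A} : f ∈ J φ r ↔ ∀ n < r, PowerSeries.coeff n (φ f) = 0 := by
  unfold J
  rw [Ideal.mem_comap, Ideal.mem_span_singleton, PowerSeries.X_pow_dvd_iff]

theorem J_hat (φ : B →+* PowerSeries K) (r : ℕ) : J (hat φ) r = CI (J φ r) := by
  ext x
  rw [mem_J, mem_CI]
  constructor
  · intro h a
    rw [mem_J]
    intro n hn
    rw [← coeff_hat, h n hn, HahnSeries.coeff_zero]
  · intro h n hn
    ext a
    rw [coeff_hat, mem_J.1 (h a) n hn, HahnSeries.coeff_zero]

/-- **transfer**: the coefficients of the image lie in the power of the ideal -/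
theorem transfer {A : Type} [CommRing A] (φ : B →+* PowerSeries K) (Φ : A →+* HahnSeries ℝ B)
    {r w : ℕ} {f : A} (hf : f ∈ J ((hat φ).comp Φ) r ^ w) (a : ℝ) :
    (Φ f).coeff a ∈ J φ r ^ w := by
  have h1 : J ((hat φ).comp Φ) r = (CI (J φ r)).comap Φ := by
    rw [← J_hat]; rfl
  rw [h1] at hf
  have h2 := Ideal.le_comap_pow Φ w hf
  rw [Ideal.mem_comap] at h2
  exact CI_pow_le _ _ h2 a

/-- the same for homomorphisms within one ring -/
theorem transfer0 {A A' : Type} [CommRing A] [CommRing A'] (φ : A' →+* PowerSeries K)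
    (Φ : A →+* A') {r w : ℕ} {f : A} (hf : f ∈ J (φ.comp Φ) r ^ w) : Φ f ∈ J φ r ^ w := by
  have h1 : J (φ.comp Φ) r = (J φ r).comap Φ := rfl
  rw [h1] at hf
  exact Ideal.le_comap_pow Φ w hf

end hat

end Pool.Agent.TH716.CF
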